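import Mathlib

namespace Pool.Agent.Results.MP_4e92f2_gt.NotMinimal

open Set Topology Filter

/-- The set `A = {-∞, 0, +∞}`. -/
def A : Set EReal := {⊥, 0, ⊤}

/-- Identify the three points of `A`. -/
def rel : Setoid EReal where
  r x y := x = y ∨ (x ∈ A ∧ y ∈ A)
  iseqv := ⟨fun _ => Or.inl rfl, fun h => h.elim (fun h => Or.inl h.symm) fun h => Or.inr h.symm,
    fun h1 h2 => h1.elim (fun h => h ▸ h2) fun h =>
      h2.elim (fun h3 => Or.inr (h3 ▸ h)) fun h3 => Or.inr ⟨h.1, h3.2⟩⟩

/-- The set `X₀`. -/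
def X0 : Type := Quotient rel

/-- The projection. -/
def q (x : EReal) : X0 := Quotient.mk rel x

/-- The topology `τ`; the point `∗` is `q 0`. -/
@[reducible] def tau : TopologicalSpace X0 where
  IsOpen U := IsOpen (q ⁻¹' U) ∧ (q 0 ∈ U → Dense (q ⁻¹' U))
  isOpen_univ := ⟨isOpen_univ, fun _ => dense_univ⟩
  isOpen_inter _ _ hS hT :=
    ⟨hS.1.inter hT.1, fun h => (hS.2 h.1).inter_of_isOpen_left (hT.2 h.2) hS.1⟩
  isOpen_sUnion _ hs := ⟨by rw [preimage_sUnion]; exact isOpen_biUnion fun t ht => (hs t ht).1,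
    fun ⟨t, ht, hx⟩ => ((hs t ht).2 hx).mono (preimage_mono (subset_sUnion_of_mem ht))⟩

/-- Limits of convergent sequences are unique. -/
def US {X : Type} (t : TopologicalSpace X) : Prop :=
  ∀ (x : ℕ → X) (a b : X), Tendsto x atTop (@nhds X t a) → Tendsto x atTop (@nhds X t b) → a = b

@[reducible] def tau' : TopologicalSpace X0 where
  IsOpen U := IsOpen (q ⁻¹' U) ∧ (q 0 ∈ U → Uᶜ.Countable)
  isOpen_univ := ⟨isOpen_univ, fun _ => by simp⟩
  isOpen_inter _ _ hS hT :=
    ⟨hS.1.inter hT.1, fun h => by rw [compl_inter]; exact (hS.2 h.1).union (hT.2 h.2)⟩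
  isOpen_sUnion _ hs := ⟨by rw [preimage_sUnion]; exact isOpen_biUnion fun t ht => (hs t ht).1,
    fun ⟨t, ht, hx⟩ => ((hs t ht).2 hx).mono (compl_subset_compl.2 (subset_sUnion_of_mem ht))⟩

lemma q_eq {x y : EReal} : q x = q y ↔ x = y ∨ (x ∈ A ∧ y ∈ A) := Quotient.eq (r := rel)

lemma A0 : (0 : EReal) ∈ A := by simp [A]

lemma q_star {x : EReal} : q x = q 0 ↔ x ∈ A :=
  ⟨fun h => (q_eq.1 h).elim (fun h => h ▸ A0) fun h => h.1, fun h => q_eq.2 (Or.inr ⟨h, A0⟩)⟩

lemma pre_img {S : Set EReal} (h : Disjoint S A) : q ⁻¹' (q '' S) = S := by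
  refine Subset.antisymm ?_ (subset_preimage_image _ _)
  rintro x ⟨y, hy, e⟩
  rcases q_eq.1 e with rfl | h1
  · exact hy
  · exact absurd h1.1 (disjoint_left.1 h hy)

lemma A_fin : A.Finite := by unfold A; exact toFinite _

lemma A_closed : IsClosed A := A_fin.isClosed

lemma dns {S : Set EReal} (h : Disjoint S A) (hi : interior ((↑) ⁻¹' S : Set ℝ) = ∅) :
    Dense Sᶜ := by
  rw [← interior_eq_empty_iff_dense_compl, eq_empty_iff_forall_notMem]
  intro x hx
  have := disjoint_left.1 h (interior_subset hx)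
  induction x with
  | bot => simp [A] at this
  | top => simp [A] at this
  | coe r =>
    have : r ∈ interior ((↑) ⁻¹' S : Set ℝ) :=
      preimage_interior_subset_interior_preimage continuous_coe_real_ereal hx
    rw [hi] at this; exact this

lemma lift_tendsto {x : ℕ → X0} {a : EReal} (ha : a ∉ A)
    (h : Tendsto x atTop (@nhds X0 tau' (q a))) :
    Tendsto (fun n => (x n).out) atTop (𝓝 a) := by
  refine tendsto_nhds.2 fun V hV haV => ?_
  have d : Disjoint (V \ A) A := disjoint_sdiff_left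
  have o : IsOpen[tau'] (q '' (V \ A)) := ⟨by rw [pre_img d]; exact hV.sdiff A_closed,
    fun ⟨y, hy, e⟩ => absurd (q_star.1 e) hy.2⟩
  have : ∀ᶠ n in atTop, x n ∈ q '' (V \ A) := h (@IsOpen.mem_nhds _ tau' _ _ o ⟨a, ⟨haV, ha⟩, rfl⟩)
  filter_upwards [this] with n hn
  have h2 : (x n).out ∈ q ⁻¹' (q '' (V \ A)) := by
    change q _ ∈ q '' (V \ A)
    rw [show q (x n).out = x n from Quotient.out_eq _]; exact hn
  rw [pre_img d] at h2
  exact h2.1

lemma not_both {x : ℕ → X0} {a : EReal} (ha : a ∉ A) (h : Tendsto x atTop (@nhds X0 tau' (q a)))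
    (h0 : Tendsto x atTop (@nhds X0 tau' (q 0))) : False := by
  have t := lift_tendsto ha h
  obtain ⟨N, hN⟩ := eventually_atTop.1 (t.eventually (A_closed.isOpen_compl.mem_nhds ha))
  have t2 := (tendsto_add_atTop_iff_nat N).2 t
  have c := t2.isCompact_insert_range
  set K := insert a (range fun n => (x (n + N)).out)
  have d : Disjoint K A := by
    refine disjoint_left.2 ?_
    rintro _ (rfl | ⟨n, rfl⟩)
    · exact ha
    · exact hN _ (by omega)
  have o : IsOpen[tau'] (q '' K)ᶜ := ⟨by rw [preimage_compl, pre_img d]; exact c.isClosed.isOpen_compl,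
    fun _ => by rw [compl_compl]; exact ((countable_range _).insert _).image _⟩
  have : ∀ᶠ n in atTop, x n ∈ (q '' K)ᶜ := h0 (@IsOpen.mem_nhds _ tau' _ _ o
    fun ⟨y, hy, e⟩ => disjoint_left.1 d hy (q_star.1 e))
  obtain ⟨n, h1, h2⟩ := (Eventually.and this (eventually_ge_atTop N)).exists
  refine h1 ⟨(x n).out, Or.inr ⟨n - N, ?_⟩, Quotient.out_eq _⟩
  simp only [Nat.sub_add_cancel h2]

lemma cantor_int : interior ((fun x : ℝ => x - 1) ⁻¹' cantorSet) = ∅ := by
  have td : IsTotallyDisconnected cantorSet := by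
    rw [← totallyDisconnectedSpace_subtype_iff]
    exact cantorSetHomeomorphNatToBool.symm.totallyDisconnectedSpace
  rw [eq_empty_iff_forall_notMem]
  intro x hx
  obtain ⟨e, he, hb⟩ := Metric.mem_nhds_iff.1 (mem_interior_iff_mem_nhds.1 hx)
  have : Icc (x - 1) (x - 1 + e / 2) ⊆ cantorSet := fun y hy => by
    have := hb (show y + 1 ∈ Metric.ball x e by
      rw [Metric.mem_ball, Real.dist_eq, abs_lt]; constructor <;> linarith [hy.1, hy.2])
    simpa using this
  have := td _ this isPreconnected_Icc (left_mem_Icc.2 (by linarith)) (right_mem_Icc.2 (by linarith))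
  linarith

theorem result : ∃ t : TopologicalSpace X0, @T1Space X0 t ∧
    (∀ U, IsOpen[t] U → IsOpen[tau] U) ∧ US t ∧ t ≠ tau := by
  refine ⟨tau', @T1Space.mk _ tau' fun x => @IsClosed.mk _ tau' _ ⟨?_, fun _ => by simp⟩,
    fun U hU => ⟨hU.1, fun h => ?_⟩, fun x a b ha hb => ?_, fun e => ?_⟩
  · obtain ⟨x, rfl⟩ : ∃ y, q y = x := Quotient.exists_rep x
    refine (Finite.isClosed ?_).isOpen_compl
    refine (A_fin.insert x).subset fun y hy => ?_
    exact (q_eq.1 hy).elim Or.inl fun h => Or.inr h.1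
  · have d : Disjoint (q ⁻¹' U)ᶜ A := disjoint_left.2 fun y hy h2 => hy (by
      change q y ∈ U
      rw [q_star.2 h2]; exact h)
    have c : (q ⁻¹' U)ᶜ.Countable := (hU.2 h).preimage_of_injOn fun y hy z _ e =>
      (q_eq.1 e).resolve_right fun h3 => disjoint_left.1 d hy h3.1
    have := dns d (interior_eq_empty_iff_dense_compl.2
      ((c.preimage EReal.coe_injective).dense_compl ℝ))
    rwa [compl_compl] at this
  · obtain ⟨a, rfl⟩ : ∃ y, q y = a := Quotient.exists_rep a
    obtain ⟨b, rfl⟩ : ∃ y, q y = b := Quotient.exists_rep b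
    by_cases h1 : a ∈ A <;> by_cases h2 : b ∈ A
    · exact q_eq.2 (Or.inr ⟨h1, h2⟩)
    · exact (not_both h2 hb (q_star.2 h1 ▸ ha)).elim
    · exact (not_both h1 ha (q_star.2 h2 ▸ hb)).elim
    · rw [tendsto_nhds_unique (lift_tendsto h1 ha) (lift_tendsto h2 hb)]
  · let K : Set EReal := (fun x : ℝ => ((x + 1 : ℝ) : EReal)) '' cantorSet
    have inj : Function.Injective fun x : ℝ => ((x + 1 : ℝ) : EReal) := fun x y h =>
      add_right_cancel (EReal.coe_injective h)
    have c : IsCompact K := isCompact_cantorSet.image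
      (continuous_coe_real_ereal.comp (continuous_add_const 1))
    have d : Disjoint K A := by
      refine disjoint_left.2 ?_
      rintro _ ⟨x, hx, rfl⟩ (h | h | h)
      · exact EReal.coe_ne_bot _ h
      · have := (cantorSet_subset_unitInterval hx).1
        have : x + 1 = 0 := EReal.coe_injective h
        linarith
      · exact EReal.coe_ne_top _ h
    have i : interior ((↑) ⁻¹' K : Set ℝ) = ∅ := by
      rw [← cantor_int]
      congr 1
      ext y
      constructor
      · rintro ⟨x, hx, h⟩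
        have : x + 1 = y := EReal.coe_injective h
        simpa [← this] using hx
      · intro h; exact ⟨_, h, by simp⟩
    have o : IsOpen[tau] (q '' K)ᶜ := by
      refine ⟨?_, fun _ => ?_⟩ <;> rw [preimage_compl, pre_img d]
      · exact c.isClosed.isOpen_compl
      · exact dns d i
    rw [← e] at o
    have h1 := o.2 fun ⟨y, hy, e⟩ => disjoint_left.1 d hy (q_star.1 e)
    rw [compl_compl] at h1
    have h2 : K.Countable := countable_of_injective_of_countable_image
      (fun y hy z _ e => (q_eq.1 e).resolve_right fun h3 => disjoint_left.1 d hy h3.1) h1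
    have h3 : Countable cantorSet := (countable_of_injective_of_countable_image inj.injOn h2).to_subtype
    have h4 : Countable (ℕ → Bool) := cantorSetEquivNatToBool.symm.injective.countable
    have h5 : Countable (Set ℕ) := (Equiv.arrowCongr (Equiv.refl ℕ) Equiv.propEquivBool).injective.countable
    obtain ⟨f, hf⟩ := exists_injective_nat (Set ℕ)
    exact Function.cantor_injective f hf

end Pool.Agent.Results.MP_4e92f2_gt.NotMinimal
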